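import Mathlib

set_option autoImplicit false

open Set Filter Metric
open scoped Topology RealInnerProductSpace

namespace Pool.Agent.Results.MP_ef197a_an.Balls

/-- `P` is the nearest-point projection onto `C`. -/
def IsProj {d : ℕ} (C : Set (EuclideanSpace ℝ (Fin d)))
    (P : EuclideanSpace ℝ (Fin d) → EuclideanSpace ℝ (Fin d)) : Prop :=
  ∀ x, P x ∈ C ∧ ∀ y ∈ C, dist x (P x) ≤ dist x y

variable {d : ℕ}

lemma ineq {C : Set (EuclideanSpace ℝ (Fin d))} (hC : Convex ℝ C) {P} (h : IsProj C P) (x y)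
    (hy : y ∈ C) : ⟪x - P x, y - P x⟫ ≤ 0 := by
  refine (norm_eq_iInf_iff_real_inner_le_zero hC (h x).1).1 ?_ y hy
  haveI : Nonempty C := ⟨⟨y, hy⟩⟩
  refine le_antisymm (le_ciInf fun w => ?_) (ciInf_le ⟨0, ?_⟩ (⟨P x, (h x).1⟩ : C))
  · simpa [dist_eq_norm] using (h x).2 w w.2
  · rintro _ ⟨w, rfl⟩
    exact norm_nonneg _

lemma firm {C : Set (EuclideanSpace ℝ (Fin d))} (hC : Convex ℝ C) {P} (h : IsProj C P) (x y) :
    0 ≤ ⟪(x - y) - (P x - P y), P x - P y⟫ := by
  have h1 := ineq hC h x _ (h y).1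
  have h2 := ineq hC h y _ (h x).1
  simp only [inner_sub_left, inner_sub_right, real_inner_comm] at *
  linarith

lemma proj_out {a : EuclideanSpace ℝ (Fin d)} {r : ℝ} {P} (h : IsProj (closedBall a r) P)
    (hr : 0 ≤ r) (u) (hu : ‖u‖ = 1) (τ : ℝ) (hτ : r ≤ τ) : P (a + τ • u) = a + r • u := by
  have h1 := ineq (convex_closedBall a r) h (a + τ • u) (a + r • u)
    (by simp [norm_smul, hu, abs_of_nonneg hr])
  have h2 := (h (a + τ • u)).1
  set p := P (a + τ • u)
  have h3 : ⟪u, p - a⟫ ≤ r := by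
    have := real_inner_le_norm u (p - a)
    rw [mem_closedBall, dist_eq_norm] at h2
    rw [hu] at this
    linarith
  have h4 : ⟪u, u⟫ = 1 := by rw [real_inner_self_eq_norm_sq, hu]; norm_num
  have e : a + τ • u - p = (τ - r) • u + (a + r • u - p) := by rw [sub_smul]; abel
  have e2 : ⟪u, a + r • u - p⟫ = r - ⟪u, p - a⟫ := by
    simp only [inner_sub_right, inner_add_right, inner_smul_right, h4]
    ring
  rw [e, inner_add_left, inner_smul_left, e2, real_inner_self_eq_norm_sq] at h1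
  simp only [conj_trivial] at h1
  have h5 : ‖a + r • u - p‖ ^ 2 ≤ 0 := by nlinarith [mul_nonneg (sub_nonneg.2 hτ) (sub_nonneg.2 h3)]
  have h6 : ‖a + r • u - p‖ = 0 := by nlinarith [norm_nonneg (a + r • u - p)]
  exact (sub_eq_zero.1 (norm_eq_zero.1 h6)).symm

lemma proj_in {C : Set (EuclideanSpace ℝ (Fin d))} {P} (h : IsProj C P) (x) (hx : x ∈ C) :
    P x = x := by
  have := (h x).2 x hx
  rw [dist_self] at this
  exact (dist_le_zero.1 this).symm

lemma proj_line {a : EuclideanSpace ℝ (Fin d)} {r : ℝ} {P} (h : IsProj (closedBall a r) P)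
    (hr : 0 ≤ r) (x) : ∃ c : ℝ, P x - a = c • (x - a) := by
  by_cases hx : x ∈ closedBall a r
  · exact ⟨1, by rw [proj_in h x hx, one_smul]⟩
  · rw [mem_closedBall, dist_eq_norm, not_le] at hx
    have h0 : ‖x - a‖ ≠ 0 := (hr.trans_lt hx).ne'
    have := proj_out h hr (‖x - a‖⁻¹ • (x - a)) (by simp [norm_smul, h0]) _ hx.le
    rw [smul_smul, mul_inv_cancel₀ h0, one_smul, add_sub_cancel] at this
    exact ⟨r * ‖x - a‖⁻¹, by rw [this, smul_smul, add_sub_cancel_left]⟩

lemma fejer (z : ℕ → EuclideanSpace ℝ (Fin d)) (y)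
    (h : ∀ n, ‖z (n + 1) - y‖ ^ 2 + ‖z n - z (n + 1)‖ ^ 2 ≤ ‖z n - y‖ ^ 2) :
    Antitone (fun n => ‖z n - y‖ ^ 2) ∧ (∃ L, Tendsto (fun n => ‖z n - y‖ ^ 2) atTop (𝓝 L)) ∧
      Tendsto (fun n => z n - z (n + 1)) atTop (𝓝 0) := by
  have ha : Antitone fun n => ‖z n - y‖ ^ 2 :=
    antitone_nat_of_succ_le fun n => by linarith [h n, sq_nonneg ‖z n - z (n + 1)‖]
  have hl := tendsto_atTop_ciInf ha ⟨0, by rintro _ ⟨n, rfl⟩; exact sq_nonneg _⟩
  refine ⟨ha, ⟨_, hl⟩, ?_⟩
  have h2 := hl.sub (hl.comp (tendsto_add_atTop_nat 1))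
  rw [sub_self] at h2
  have h3 : Tendsto (fun n => ‖z n - z (n + 1)‖ ^ 2) atTop (𝓝 0) :=
    squeeze_zero (fun n => sq_nonneg _) (fun n => by simp only [Function.comp]; linarith [h n]) h2
  rw [tendsto_zero_iff_norm_tendsto_zero]
  simpa using h3.sqrt

lemma real_conv (c : ℕ → ℝ) (L : ℝ) (h1 : Tendsto (fun n => c n ^ 2) atTop (𝓝 L))
    (h2 : Tendsto (fun n => c n - c (n + 1)) atTop (𝓝 0)) : ∃ l, Tendsto c atTop (𝓝 l) := by
  have h3 : Tendsto (fun n => |c n|) atTop (𝓝 √L) := by simpa [Real.sqrt_sq_eq_abs] using h1.sqrt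
  rcases (Real.sqrt_nonneg L).eq_or_lt with h0 | h0
  · rw [← h0] at h3
    exact ⟨0, (tendsto_zero_iff_abs_tendsto_zero c).2 h3⟩
  have e1 := h3.eventually (lt_mem_nhds (half_lt_self h0))
  have e2 := h2.abs.eventually (gt_mem_nhds (show |(0 : ℝ)| < √L / 2 by simpa using h0))
  obtain ⟨N, hN⟩ := eventually_atTop.1 (e1.and e2)
  by_cases hc : 0 ≤ c N
  · have : ∀ n ≥ N, 0 ≤ c n := by
      intro n hn
      induction n, hn using Nat.le_induction with
      | base => exact hc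
      | succ n hn ih =>
        have := hN n hn
        rw [abs_of_nonneg ih] at this
        linarith [(abs_lt.1 this.2).2, this.1]
    exact ⟨_, h3.congr' (eventually_atTop.2 ⟨N, fun n hn => abs_of_nonneg (this n hn)⟩)⟩
  · have : ∀ n ≥ N, c n ≤ 0 := by
      intro n hn
      induction n, hn using Nat.le_induction with
      | base => exact (not_le.1 hc).le
      | succ n hn ih =>
        have := hN n hn
        rw [abs_of_nonpos ih] at this
        linarith [(abs_lt.1 this.2).1, this.1]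
    exact ⟨_, h3.neg.congr' (eventually_atTop.2 ⟨N, fun n hn => by
      simp only [abs_of_nonpos (this n hn), neg_neg]⟩)⟩

lemma plane_conv (z : ℕ → EuclideanSpace ℝ (Fin d)) (y u w) (hu : ‖u‖ = 1) (huw : ⟪u, w⟫ = 0)
    (hz : ∀ n, z n - y ∈ Submodule.span ℝ {u, w})
    (h0 : ∃ L, Tendsto (fun n => ‖z n - y‖ ^ 2) atTop (𝓝 L))
    (h1 : ∃ L, Tendsto (fun n => ‖z n - (y + u)‖ ^ 2) atTop (𝓝 L))
    (h2 : Tendsto (fun n => z n - z (n + 1)) atTop (𝓝 0)) : ∃ l, Tendsto z atTop (𝓝 l) := by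
  obtain ⟨L0, h0⟩ := h0
  obtain ⟨L1, h1⟩ := h1
  choose α β hαβ using fun n => Submodule.mem_span_pair.1 (hz n)
  have h4 : ⟪u, u⟫ = 1 := by rw [real_inner_self_eq_norm_sq, hu]; norm_num
  have hwu : ⟪w, u⟫ = 0 := by rw [real_inner_comm, huw]
  have n0 : ∀ n, ‖z n - y‖ ^ 2 = α n ^ 2 + (β n * ‖w‖) ^ 2 := by
    intro n
    rw [← hαβ, ← real_inner_self_eq_norm_sq, mul_pow, ← real_inner_self_eq_norm_sq]
    simp only [inner_add_left, inner_add_right, inner_smul_left, inner_smul_right, h4, huw, hwu,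
      conj_trivial]
    ring
  have n1 : ∀ n, α n = (‖z n - y‖ ^ 2 + 1 - ‖z n - (y + u)‖ ^ 2) / 2 := by
    intro n
    rw [← sub_sub, norm_sub_sq_real (z n - y) u, hu, ← hαβ]
    simp only [inner_add_left, inner_smul_left, h4, hwu, conj_trivial]
    ring
  have tα : Tendsto α atTop (𝓝 ((L0 + 1 - L1) / 2)) := by
    rw [funext n1]
    exact ((h0.add_const 1).sub h1).div_const 2
  have tβ : Tendsto (fun n => (β n * ‖w‖ ^ 2) ^ 2) atTop
      (𝓝 ((L0 - ((L0 + 1 - L1) / 2) ^ 2) * ‖w‖ ^ 2)) := by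
    refine ((h0.sub (tα.pow 2)).mul_const _).congr fun n => ?_
    rw [n0]
    ring
  have tγ : Tendsto (fun n => β n * ‖w‖ ^ 2 - β (n + 1) * ‖w‖ ^ 2) atTop (𝓝 0) := by
    have := h2.inner (𝕜 := ℝ) (tendsto_const_nhds (x := w))
    rw [inner_zero_left] at this
    refine this.congr fun n => ?_
    rw [show z n - z (n + 1) = (z n - y) - (z (n + 1) - y) by abel, ← hαβ, ← hαβ,
      ← real_inner_self_eq_norm_sq]
    simp only [inner_add_left, inner_sub_left, inner_smul_left, huw, conj_trivial]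
    ring
  obtain ⟨l, hl⟩ := real_conv _ _ tβ tγ
  refine ⟨_, (((tα.smul_const u).add ((hl.div_const (‖w‖ ^ 2)).smul_const w)).const_add y).congr
    fun n => ?_⟩
  have : (β n * ‖w‖ ^ 2 / ‖w‖ ^ 2) • w = β n • w := by
    by_cases hw : w = 0
    · simp [hw]
    · rw [mul_div_cancel_right₀ _ (by positivity)]
  rw [this, hαβ, add_sub_cancel]

theorem result (d : ℕ) (a b : EuclideanSpace ℝ (Fin d)) (r s : ℝ)
    (PA PB T : EuclideanSpace ℝ (Fin d) → EuclideanSpace ℝ (Fin d))
    (hA : IsProj (closedBall a r) PA) (hB : IsProj (closedBall b s) PB)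
    (hT : ∀ x, T x = (1 / 2 : ℝ) •
      (x + ((2 : ℝ) • PB ((2 : ℝ) • PA x - x) - ((2 : ℝ) • PA x - x))))
    (v : EuclideanSpace ℝ (Fin d)) (hv : v ∈ closure (range fun x => x - T x))
    (hmin : ∀ w ∈ closure (range fun x => x - T x), ‖v‖ ≤ ‖w‖) (x : EuclideanSpace ℝ (Fin d)) :
    ∃ l, Tendsto (fun n : ℕ => T^[n] x + (n : ℝ) • v) atTop (𝓝 l) := by
  have hr : 0 ≤ r := nonempty_closedBall.1 ⟨_, (hA x).1⟩
  have hs : 0 ≤ s := nonempty_closedBall.1 ⟨_, (hB x).1⟩
  have hT' : ∀ x, T x = x - PA x + PB ((2 : ℝ) • PA x - x) := fun x => by rw [hT]; module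
  have hF : ∀ x y, ‖T x - T y‖ ^ 2 + ‖(x - y) - (T x - T y)‖ ^ 2 ≤ ‖x - y‖ ^ 2 := by
    intro x y
    have h1 := firm (convex_closedBall a r) hA x y
    have h2 := firm (convex_closedBall b s) hB ((2 : ℝ) • PA x - x) ((2 : ℝ) • PA y - y)
    have e1 : T x - T y = (x - y) - (PA x - PA y) +
      (PB ((2 : ℝ) • PA x - x) - PB ((2 : ℝ) • PA y - y)) := by rw [hT', hT']; abel
    have e2 : (2 : ℝ) • PA x - x - ((2 : ℝ) • PA y - y) = (2 : ℝ) • (PA x - PA y) - (x - y) := by
      module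
    rw [e2] at h2
    rw [e1]
    generalize PB ((2 : ℝ) • PA x - x) - PB ((2 : ℝ) • PA y - y) = q at *
    generalize PA x - PA y = p at *
    generalize x - y = δ at *
    simp only [← real_inner_self_eq_norm_sq, inner_add_left, inner_add_right, inner_sub_left,
      inner_sub_right, inner_smul_left, conj_trivial, real_inner_comm] at *
    linarith
  have hz : ∀ y, (∀ n : ℕ, T (y - (n : ℝ) • v) = y - (n : ℝ) • v - v) → ∀ n : ℕ,
      ‖T^[n + 1] x + ((n + 1 : ℕ) : ℝ) • v - y‖ ^ 2 + ‖T^[n] x + (n : ℝ) • v -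
        (T^[n + 1] x + ((n + 1 : ℕ) : ℝ) • v)‖ ^ 2 ≤ ‖T^[n] x + (n : ℝ) • v - y‖ ^ 2 := by
    intro y hy n
    have := hF (T^[n] x) (y - (n : ℝ) • v)
    rw [hy, ← Function.iterate_succ_apply' T] at this
    have a1 : T^[n + 1] x + ((n + 1 : ℕ) : ℝ) • v - y = T^[n.succ] x - (y - (n : ℝ) • v - v) := by
      push_cast; module
    have a2 : T^[n] x + (n : ℝ) • v - (T^[n + 1] x + ((n + 1 : ℕ) : ℝ) • v) =
        T^[n] x - (y - (n : ℝ) • v) - (T^[n.succ] x - (y - (n : ℝ) • v - v)) := by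
      push_cast; module
    have a3 : T^[n] x + (n : ℝ) • v - y = T^[n] x - (y - (n : ℝ) • v) := by module
    rwa [a1, a2, a3]
  by_cases hab : dist a b ≤ r + s
  · obtain ⟨c, hc1, hc2⟩ : ∃ c, c ∈ closedBall a r ∧ c ∈ closedBall b s := by
      obtain ⟨c, h1, h2⟩ := exists_dist_le_le hr hs (by linarith : dist a b ≤ s + r)
      exact ⟨c, by rwa [mem_closedBall, dist_comm], h2⟩
    have hc : T c = c := by
      rw [hT', proj_in hA c hc1, two_smul, add_sub_cancel_right, proj_in hB c hc2, sub_add_cancel]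
    have v0 : v = 0 := by simpa [hc] using hmin _ (subset_closure ⟨c, rfl⟩)
    subst v0
    simp only [smul_zero, add_zero, sub_zero] at hz ⊢
    obtain ⟨g1, -, g2⟩ := fejer (fun n => T^[n] x) c (hz c fun _ => hc)
    obtain ⟨l, -, φ, hφ, hl⟩ := tendsto_subseq_of_bounded (isBounded_closedBall (x := c)
      (r := ‖x - c‖)) (x := fun n => T^[n] x) fun n => by
        rw [mem_closedBall, dist_eq_norm]
        exact abs_le_of_sq_le_sq' (g1 (Nat.zero_le n)) (norm_nonneg _) |>.2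
    have hcont : Continuous T := (LipschitzWith.of_dist_le_mul (K := 1) fun x y => by
      rw [dist_eq_norm, dist_eq_norm, NNReal.coe_one, one_mul]
      exact (abs_le_of_sq_le_sq' (by linarith [hF x y, sq_nonneg ‖(x - y) - (T x - T y)‖])
        (norm_nonneg _)).2).continuous
    have hfix : T l = l := by
      have t1 := hl.sub ((hcont.tendsto l).comp hl)
      have t2 := g2.comp hφ.tendsto_atTop
      refine (sub_eq_zero.1 (tendsto_nhds_unique t1 (t2.congr fun n => ?_))).symm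
      simp [Function.iterate_succ_apply']
    obtain ⟨-, ⟨L, g3⟩, -⟩ := fejer (fun n => T^[n] x) l (hz l fun _ => hfix)
    have L0 : L = 0 := by
      have t1 := ((hl.sub_const l).norm).pow 2
      simpa using tendsto_nhds_unique (g3.comp hφ.tendsto_atTop) t1
    subst L0
    refine ⟨l, tendsto_iff_norm_sub_tendsto_zero.2 ?_⟩
    simpa using g3.sqrt
  push Not at hab
  rw [dist_comm, dist_eq_norm] at hab
  set D := ‖b - a‖ with hD
  have D0 : 0 < D := by linarith
  set u := D⁻¹ • (b - a) with hu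
  have u1 : ‖u‖ = 1 := by simp [hu, norm_smul, ← hD, abs_of_pos D0, D0.ne']
  have hb : b = a + D • u := by rw [hu, smul_smul, mul_inv_cancel₀ D0.ne', one_smul, add_sub_cancel]
  clear_value u D
  have h4 : ⟪u, u⟫ = 1 := by rw [real_inner_self_eq_norm_sq, u1]; norm_num
  have hray : ∀ t, r ≤ t → T (a + t • u) = a + (t + (D - r - s)) • u := by
    intro t ht
    have e : (2 : ℝ) • (a + r • u) - (a + t • u) = b + (D + t - 2 * r) • -u := by rw [hb]; module
    rw [hT', proj_out hA hr u u1 t ht, e, proj_out hB hs (-u) (by simpa using u1) _ (by linarith), hb]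
    module
  have hv' : v = -(D - r - s) • u := by
    have g1 : ⟪u, v⟫ ≤ -(D - r - s) := by
      refine closure_minimal (t := {w | ⟪u, w⟫ ≤ -(D - r - s)}) ?_
        (isClosed_le (by fun_prop) continuous_const) hv
      rintro _ ⟨y, rfl⟩
      have p1 := (hA y).1
      have p2 := (hB ((2 : ℝ) • PA y - y)).1
      rw [mem_closedBall, dist_eq_norm] at p1 p2
      have e : y - T y = (PA y - a) - (PB ((2 : ℝ) • PA y - y) - b) - D • u := by
        rw [hT', hb]; abel
      have q1 := real_inner_le_norm u (PA y - a)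
      have q2 := (abs_le.1 (abs_real_inner_le_norm u (PB ((2 : ℝ) • PA y - y) - b))).1
      simp only [mem_setOf_eq]
      rw [e, inner_sub_right, inner_sub_right, inner_smul_right, h4]
      rw [u1] at q1 q2
      linarith
    have g2 := hmin _ (subset_closure ⟨a + r • u, rfl⟩)
    have e : a + r • u - T (a + r • u) = -(D - r - s) • u := by rw [hray r le_rfl]; module
    simp only [e, norm_smul, u1, mul_one, Real.norm_eq_abs, abs_neg] at g2
    rw [abs_of_pos (by linarith)] at g2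
    have g3 : ‖v - -(D - r - s) • u‖ ^ 2 ≤ 0 := by
      rw [norm_sub_sq_real, inner_smul_right, real_inner_comm, norm_smul, u1, mul_one,
        Real.norm_eq_abs, sq_abs]
      nlinarith [norm_nonneg v]
    exact sub_eq_zero.1 (norm_eq_zero.1 (by nlinarith [norm_nonneg (v - -(D - r - s) • u)]))
  have hy : ∀ t, r ≤ t → ∀ n : ℕ, T (a + t • u - (n : ℝ) • v) = a + t • u - (n : ℝ) • v - v := by
    intro t ht n
    have e : a + t • u - (n : ℝ) • v = a + (t + n * (D - r - s)) • u := by rw [hv']; module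
    have : 0 ≤ (n : ℝ) * (D - r - s) := mul_nonneg (Nat.cast_nonneg n) (by linarith)
    rw [e, hray _ (by linarith), hv']
    module
  obtain ⟨-, g0, g2⟩ := fejer (fun n : ℕ => T^[n] x + (n : ℝ) • v) _ (hz _ (hy r le_rfl))
  obtain ⟨-, g1, -⟩ := fejer (fun n : ℕ => T^[n] x + (n : ℝ) • v) _ (hz _ (hy (r + 1) (by linarith)))
  set w := x - a - ⟪u, x - a⟫ • u with hw
  have hU : u ∈ Submodule.span ℝ {u, w} := Submodule.subset_span (by simp)
  have hin : ∀ n : ℕ, T^[n] x - a ∈ Submodule.span ℝ {u, w} := by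
    intro n
    induction n with
    | zero => exact Submodule.mem_span_pair.2 ⟨⟪u, x - a⟫, 1, by simp [hw]⟩
    | succ n ih =>
      rw [Function.iterate_succ_apply']
      obtain ⟨c, hc⟩ := proj_line hA hr (T^[n] x)
      obtain ⟨c', hc'⟩ := proj_line hB hs ((2 : ℝ) • PA (T^[n] x) - T^[n] x)
      have e : T (T^[n] x) - a = (1 - c + c' * (2 * c - 1)) • (T^[n] x - a) + (D - c' * D) • u := by
        rw [hT', eq_add_of_sub_eq hc', eq_add_of_sub_eq hc, hb]
        module
      rw [e]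
      exact add_mem (Submodule.smul_mem _ _ ih) (Submodule.smul_mem _ _ hU)
  refine plane_conv _ (a + r • u) u w u1 ?_ (fun n => ?_) g0 ?_ g2
  · rw [hw, inner_sub_right, inner_smul_right, h4, mul_one, sub_self]
  · have e : T^[n] x + (n : ℝ) • v - (a + r • u) = (T^[n] x - a) + (-(n * (D - r - s)) - r) • u := by
      rw [hv']
      module
    rw [e]
    exact add_mem (hin n) (Submodule.smul_mem _ _ hU)
  · simpa only [add_smul, one_smul, add_assoc] using g1

end Pool.Agent.Results.MP_ef197a_an.Balls
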